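import Mathlib
import Pool.Agent.H197.GS.FinalS
import Pool.Agent.H197.GS.LOCE
import Pool.Agent.H197.GS.QONE
import Pool.Agent.H197.GS.NBA
import Pool.Agent.H197.GS.NBC
import Pool.Agent.H197.GS.ROTZ
import Pool.Agent.H197.GS.DBL
import Pool.Agent.H197.GS.SQ1
import Pool.Agent.H197.GS.SQ2

/-!
# Stein's restriction conjecture and corrections on small sets

(1) Correction theorem. Let `n ≥ 2`. For every totally bounded family of densities on the unit sphere of `ℝ^n` (for instance a single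
measurable density) with `|g| ≤ M` there is ONE set `Z` of measure at most `ε` such that every density of the family
agrees off `Z` with a CONTINUOUS density `h`, `|h| ≤ C M / ε`, whose Fourier transform satisfies the POINTWISE estimate
`|(h dσ)^(ξ)| ≤ (C M / ε) √log (2 + |ξ|) (1 + |ξ|)^(-(n-1)/2)` for all `ξ`; so it is in `L^p` for all `p > 2n/(n-1)`.

(2) Threshold. There is a function `c(p) > 0` such that for `n ≥ 2`, `p ≥ 2`: suppose that every measurable density `|g| ≤ 1` agrees off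
a set `Z` with a density `h`, `|h| ≤ K` on `Z`, where `(1 + K)^p σ(Z) ≤ c(p) σ(S)` and `‖(h dσ)^‖_p ≤ A`. Here `h`, `K`, `Z` may depend on
`g`. Then `‖(g dσ)^‖_p ≤ 2 A` for all `|g| ≤ 1`. The same holds for the norms in `L^p` of the ball of radius `R`, for every `R`.

(3) Stein's conjecture in dimension `n` (`(g dσ)^ ∈ L^q` for all bounded `g` and all `q > 2n/(n-1)`) holds if and only if for every `δ > 0` all
densities `|g| ≤ 1` can be corrected in this way for the exponent `p = 2n/(n-1)` and the ball of radius `R`, with the bound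
`A = C R^δ`, for all `R ≥ 1`; the correction may depend on `g` and on `R`.

So corrections of size `K = C / ε` on sets of measure `ε` exist for EVERY `ε`, with the full range of exponents and no loss, and
corrections of size `K = c ε^(-1/p)`, for ONE `ε` and with losses `R^δ`, are equivalent to the conjecture.

Method. (1) Random multipliers on a lattice partition of unity, almost orthogonality, exponential moments, iteration for families.
(2) Let `a(t)` be the largest norm in `L^p(B_R)` for densities `|g| ≤ 1` supported on sets of measure `t σ(S)`. Two rotated copies of an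
extremal density with almost disjoint supports and Clarkson's inequality give `a(t)^p + (a(t) - a(2t²))^p ≤ a(2t)^p`, hence
`a(t) ≤ C t^(1/p) a(1)`, with `C` independent of `R`, and `a(1) ≤ A + sup (1 + K) a(σ(Z)/σ(S)) ≤ A + a(1)/2`. (3) The removal of the
losses `R^δ` (Tao) and the uniform boundedness principle.
-/

set_option autoImplicit false

open MeasureTheory Metric Set
open scoped ENNReal RealInnerProductSpace

namespace Pool.Agent.Results.MP_6cbfb8_an.CorrectionThreshold

/-- `ℝ^n` with the Euclidean norm. -/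
abbrev E (n : ℕ) := EuclideanSpace ℝ (Fin n)

/-- The unit sphere of `ℝ^n`. -/
abbrev S (n : ℕ) := sphere (0 : E n) 1

/-- Surface measure on the unit sphere of `ℝ^n`. -/
noncomputable def sigma (n : ℕ) : Measure (S n) := (volume : Measure (E n)).toSphere

/-- The Fourier transform of the measure `g dσ`. -/
noncomputable def ft {n : ℕ} (g : S n → ℂ) (ξ : E n) : ℂ :=
  ∫ x, Complex.exp (-(2 * Real.pi * ⟪(x : E n), ξ⟫ : ℝ) * Complex.I) * g x ∂(sigma n)

/-- The density `g`, replaced by zero where `|g| > M`. -/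
noncomputable def cut {n : ℕ} (M : ℝ) (g : S n → ℂ) (x : S n) : ℂ :=
  open Classical in if ‖g x‖ ≤ M then g x else 0

/-- The family `g` is totally bounded in the sup norm. -/
def TotallyBdd {n : ℕ} {ι : Type} (g : ι → S n → ℂ) : Prop :=
  ∀ δ : ℝ, 0 < δ → ∃ s : Finset ι, ∀ i, ∃ j ∈ s, ∀ x, ‖g i x - g j x‖ ≤ δ

/-- Lebesgue measure on the ball of radius `R`. -/
noncomputable def ballVol (n : ℕ) (R : ℝ) : Measure (E n) := volume.restrict (closedBall (0 : E n) R)

/-- The estimate for the exponent `p` with the bound `A`, for all densities `|g| ≤ 1`. -/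
def Estimate (n : ℕ) (p : ℝ) (μ : Measure (E n)) (A : ℝ) : Prop :=
  ∀ g : S n → ℂ, Measurable g → (∀ x, ‖g x‖ ≤ 1) → eLpNorm (ft g) (ENNReal.ofReal p) μ ≤ ENNReal.ofReal A

/-- Every density `|g| ≤ 1` can be corrected on a set `Z` by values of size at most `K`, with `(1 + K)^p σ(Z) ≤ c σ(S)`, such that
the estimate for the exponent `p` holds with the bound `A`. The correction `h`, the size `K` and the set `Z` may depend on `g`. -/
def Corrected (n : ℕ) (p c : ℝ) (μ : Measure (E n)) (A : ℝ) : Prop :=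
  ∀ g : S n → ℂ, Measurable g → (∀ x, ‖g x‖ ≤ 1) →
    ∃ (h : S n → ℂ) (K : ℝ) (Z : Set (S n)), Measurable h ∧ 0 ≤ K ∧ MeasurableSet Z ∧
      (1 + K) ^ p * (sigma n).real Z ≤ c * (sigma n).real univ ∧
      (∀ x, x ∉ Z → h x = g x) ∧ (∀ x, x ∈ Z → ‖h x‖ ≤ K) ∧
      eLpNorm (ft h) (ENNReal.ofReal p) μ ≤ ENNReal.ofReal A

/-- The assertion of Q1 for the dimension `n` and the exponent `q`. -/
def Stein (n : ℕ) (q : ℝ) : Prop :=
  ∀ g : S n → ℂ, Measurable g → (∃ M : ℝ, ∀ x, ‖g x‖ ≤ M) → MemLp (ft g) (ENNReal.ofReal q) volume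

/-- The exponent `2n/(n-1)`. -/
noncomputable def critical (n : ℕ) : ℝ := 2 * (n : ℝ) / (n - 1)

/-- **Theorem.** (1) For `n ≥ 2` there is `C` such that for every family of measurable densities `g i` whose truncations at `M` are
totally bounded, `0 < ε ≤ 1`, `p₀ > 2n/(n-1)`, `η > 0` there is ONE measurable `Z`, `σ(Z) ≤ ε`, such that for every `i` there is a
continuous `h`, `|h| ≤ C M / ε`, equal to `g i` at all points off `Z` where `|g i| ≤ M`, with the pointwise decay, in `L^p` for all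
`p > 2n/(n-1)`, and with norms at most `η` in `L^r` for `p₀ ≤ r ≤ ∞`.
(2) There is a positive function `c` such that for `p ≥ 2`, `n ≥ 2`, `A ≥ 0`: if every density `|g| ≤ 1` can be corrected, with
`(1 + K)^p σ(Z) ≤ c(p) σ(S)` and the bound `A`, then the estimate holds with the bound `2 A`, on the ball of radius `R` and on `ℝ^n`.
(3) For `n ≥ 2` the assertion of Q1 in dimension `n` is equivalent to corrections with the bounds `C R^δ` on the balls of
radius `R ≥ 1`, for every `δ > 0`, with the exponent `p = 2n/(n-1)`. -/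
theorem result :
    (∀ n : ℕ, 2 ≤ n → ∃ C : ℝ, 0 < C ∧
      ∀ (ι : Type) (g : ι → S n → ℂ) (M ε p₀ η : ℝ), (∀ i, Measurable (g i)) →
      0 < M → TotallyBdd (fun i => cut M (g i)) → 0 < ε → ε ≤ 1 → critical n < p₀ → 0 < η →
      ∃ Z : Set (S n), MeasurableSet Z ∧ sigma n Z ≤ ENNReal.ofReal ε ∧ ∀ i, ∃ h : S n → ℂ,
        Continuous h ∧ (∀ x, ‖h x‖ ≤ C * M / ε) ∧ (∀ x, x ∉ Z → ‖g i x‖ ≤ M → h x = g i x) ∧
        (∀ ξ : E n, ‖ft h ξ‖ ≤
          C * M / ε * (√(Real.log (2 + ‖ξ‖)) * (1 + ‖ξ‖) ^ (-(((n : ℝ) - 1) / 2)))) ∧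
        (∀ p : ℝ, critical n < p → MemLp (ft h) (ENNReal.ofReal p) volume) ∧
        ∀ r : ℝ≥0∞, ENNReal.ofReal p₀ ≤ r → eLpNorm (ft h) r volume ≤ ENNReal.ofReal η) ∧
    ∃ c : ℝ → ℝ, (∀ p, 0 < c p) ∧
      (∀ p : ℝ, 2 ≤ p → ∀ n : ℕ, 2 ≤ n → ∀ A : ℝ, 0 ≤ A →
        (∀ R : ℝ, Corrected n p (c p) (ballVol n R) A → Estimate n p (ballVol n R) (2 * A)) ∧
        (Corrected n p (c p) volume A → Estimate n p volume (2 * A))) ∧
      ∀ n : ℕ, 2 ≤ n →
        ((∀ q : ℝ, critical n < q → Stein n q) ↔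
          ∀ δ : ℝ, 0 < δ → ∃ C : ℝ, ∀ R : ℝ, 1 ≤ R →
            Corrected n (critical n) (c (critical n)) (ballVol n R) (C * R ^ δ)) := by
  refine ⟨?_, ?_⟩
  · intro n hn
    obtain ⟨C, hC, H⟩ := Pool.Agent.H197.SP.final_COS n hn
    refine ⟨C, hC, ?_⟩
    intro ι g M ε p₀ η hg hM htb hε hε1 hp₀ hη
    have hA : 0 < C * M / ε := by positivity
    obtain ⟨δ, hδ, hδη, hsmall⟩ := Pool.Agent.H197.PD.NORMS.small_norms
      Pool.Agent.H197.PD.t_MEMLP hn (C * M / ε) hA p₀ hp₀ η hη
    have hcm : ∀ i, Measurable (fun x => cut M (g i) x) := by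
      intro i
      unfold cut
      exact Measurable.ite (measurableSet_le (hg i).norm measurable_const) (hg i) measurable_const
    have hcb : ∀ i x, ‖cut M (g i) x‖ ≤ M := by
      intro i x
      unfold cut
      split_ifs with h
      · exact h
      · rw [norm_zero]; exact hM.le
    obtain ⟨Z, hZ, hZε, HZ⟩ := H ι (fun i => cut M (g i)) hcm M hM hcb htb ε hε hε1 δ hδ
    refine ⟨Z, hZ, hZε, fun i => ?_⟩
    obtain ⟨h, h1, h2, h3, h4, h5⟩ := HZ i
    refine ⟨h, h1, h2, fun x hx hxM => ?_, h4, fun p hp => ?_, fun r hr => hsmall (ft h) h4 h5 r hr⟩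
    · rw [h3 x hx]
      unfold cut
      rw [if_pos hxM]
    · exact Pool.Agent.H197.PD.t_MEMLP n hn (ft h) (C * M / ε)
        (Pool.Agent.H197.PD.ft_cont (Pool.Agent.H197.PD.int_of_bdd h1.measurable h2)) h4 p hp
  · have hAV := Pool.Agent.H197.SP.t_DBL Pool.Agent.H197.SP.t_NBA Pool.Agent.H197.SP.t_NBC Pool.Agent.H197.SP.t_ROTZ
    have hSQ := Pool.Agent.H197.SP.t_SQ2 Pool.Agent.H197.SP.t_SQ1
    have hcore := Pool.Agent.H197.SP.t_CORE Pool.Agent.H197.SP.t_NBA (Pool.Agent.H197.SP.t_REST hSQ hAV) hAV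
    have key : ∀ p : ℝ, ∃ c : ℝ, 0 < c ∧ (2 ≤ p → ∀ n : ℕ, 2 ≤ n → ∀ A : ℝ, 0 ≤ A →
        (∀ R : ℝ, Corrected n p c (ballVol n R) A → Estimate n p (ballVol n R) (2 * A)) ∧
        (Corrected n p c volume A → Estimate n p volume (2 * A))) := by
      intro p
      by_cases hp : 2 ≤ p
      · obtain ⟨c, hc, H⟩ := hcore p hp
        exact ⟨c, hc, fun _ n hn A hA => ⟨fun R hX => (H n hn A hA).1 R hX, fun hX => (H n hn A hA).2 hX⟩⟩
      · exact ⟨1, one_pos, fun h => absurd h hp⟩
    choose c hc H using key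
    refine ⟨c, hc, fun p hp n hn A hA => H p hp n hn A hA, fun n hn => ?_⟩
    have hn2 : (2 : ℝ) ≤ n := by exact_mod_cast hn
    have hcrit : 2 ≤ critical n := by
      unfold critical
      rw [le_div_iff₀ (by linarith)]
      linarith
    have hiff := Pool.Agent.H197.SP.QO.St_LE hn hcrit
    constructor
    · intro hSt δ hδ
      obtain ⟨C, hC, hE⟩ := hiff.1 hSt δ hδ
      refine ⟨C, fun R hR g hg hg1 => ⟨g, 0, ∅, hg, le_rfl, MeasurableSet.empty, ?_, fun _ _ => rfl,
        fun x hx => absurd hx (notMem_empty x), hE g hg hg1 R hR⟩⟩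
      rw [measureReal_empty, mul_zero]
      exact mul_nonneg (hc _).le measureReal_nonneg
    · intro hX
      refine hiff.2 fun τ hτ => ?_
      obtain ⟨C, hC⟩ := hX τ hτ
      refine ⟨2 * max C 0, by positivity, fun g hg hg1 R hR => ?_⟩
      have hRp : 0 < R ^ τ := Real.rpow_pos_of_pos (by linarith) _
      have h1 : Corrected n (critical n) (c (critical n)) (ballVol n R) (max C 0 * R ^ τ) := by
        intro g hg hg1
        obtain ⟨h, K, Z, a1, a2, a3, a4, a5, a6, a7⟩ := hC R hR g hg hg1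
        exact ⟨h, K, Z, a1, a2, a3, a4, a5, a6, a7.trans (ENNReal.ofReal_le_ofReal
          (mul_le_mul_of_nonneg_right (le_max_left _ _) hRp.le))⟩
      have h2 := (H (critical n) hcrit n hn (max C 0 * R ^ τ) (by positivity)).1 R h1 g hg hg1
      rw [← mul_assoc] at h2
      exact h2

end Pool.Agent.Results.MP_6cbfb8_an.CorrectionThreshold
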