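import Mathlib
import Pool.Agent.H243.RA.F4
set_option autoImplicit false

/-!
# Stein's restriction conjecture: densities with few degrees in longitude

`n ≥ 3`. A function on the unit sphere of `ℝ^n` has latitudinal degree `l` if on every parallel
`{x_n = s}` it coincides with a homogeneous harmonic polynomial of degree `l` in `x_1, …, x_{n-1}`.
The coefficients of the polynomial are arbitrary bounded measurable functions of `s`.

1. For `p > 2n/(n-1)`, the full range of the conjecture, `‖(g dσ)^‖_p ≤ C ‖g‖_∞` for all bounded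
   densities `g` of one latitudinal degree `l`, with a constant `C` which does not depend on `l`.
2. If `g` is bounded by `A` and is the sum in `L¹(σ)` of densities `g_l` of latitudinal degree `l`
   with `∑_{l < N} ‖g_l‖_∞ ≤ A N^β` for all `N ≥ 1`, `0 ≤ β < (n-2)/4`, then
   `‖(g dσ)^‖_p ≤ C A` for `p > 2(n-4β)/(n-1-4β)`.
3. If these sums are `O(N^β)` for every `β > 0` then the transform is in `L^p` for all `p > 2n/(n-1)`.
4. Let `n = 3`. If `g` is bounded and the Fourier series of `g` in longitude contains only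
   frequencies `±l` with `l` in a set `L` with at most `B N^β` elements below `N`, `β < 1/4`, then
   `‖(g dσ)^‖_p ≤ C B ‖g‖_∞` for `p > 2(3-4β)/(2-4β)`; if the set has `O(N^β)` elements
   below `N` for every `β > 0` then the transform is in `L^p` for all `p > 3`.
-/

namespace Pool.Agent.Results.MP_6cbfb8_an.LatitudinalDegrees

open MeasureTheory Set Metric Filter Topology
open scoped ENNReal NNReal RealInnerProductSpace

/-- `ℝ^n` -/
abbrev E (n : ℕ) := EuclideanSpace ℝ (Fin n)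

/-- the unit sphere of `ℝ^n` -/
abbrev Sph (n : ℕ) := sphere (0 : E n) 1

/-- surface measure on the unit sphere of `ℝ^n` -/
noncomputable def sigma (n : ℕ) : Measure (Sph n) := (volume : Measure (E n)).toSphere

/-- the Fourier transform of the measure `g dσ` -/
noncomputable def ft {n : ℕ} (g : Sph n → ℂ) (ξ : E n) : ℂ :=
  ∫ x, Complex.exp (-(2 * Real.pi * ⟪(x : E n), ξ⟫ : ℝ) * Complex.I) * g x ∂(sigma n)

/-- `g` has latitudinal degree `l`: on each parallel `{x_n = s}` of the unit sphere of `ℝ^n`,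
`n = d + 1`, it is equal to a homogeneous harmonic polynomial of degree `l` in the first `d`
coordinates. -/
def Latitudinal {d : ℕ} (l : ℕ) (g : Sph (d + 1) → ℂ) : Prop :=
  ∀ s : ℝ, ∃ P : MvPolynomial (Fin d) ℂ, P.IsHomogeneous l ∧
    ∑ i, MvPolynomial.pderiv i (MvPolynomial.pderiv i P) = 0 ∧
    ∀ x : Sph (d + 1), (x : E (d + 1)) (Fin.last d) = s →
      g x = MvPolynomial.eval (fun i : Fin d => (((x : E (d + 1)) i.castSucc : ℝ) : ℂ)) P

/-- The density `g` is bounded by `A` and is the sum in `L¹(σ)` of the densities `G l`. The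
density `G l` has latitudinal degree `l` and is bounded by `m l`, and
`m 0 + … + m (N - 1) ≤ A N^β` for all `N ≥ 1`. -/
structure Expansion {d : ℕ} (A β : ℝ) (m : ℕ → ℝ) (g : Sph (d + 1) → ℂ)
    (G : ℕ → Sph (d + 1) → ℂ) : Prop where
  gm : Measurable g
  gb : ∀ x, ‖g x‖ ≤ A
  Gm : ∀ l, Measurable (G l)
  Gb : ∀ l x, ‖G l x‖ ≤ m l
  lat : ∀ l, Latitudinal l (G l)
  grow : ∀ N : ℕ, 1 ≤ N → ∑ l ∈ Finset.range N, m l ≤ A * (N : ℝ) ^ β
  lim : Tendsto (fun N : ℕ => ∫⁻ x, ‖g x - ∑ l ∈ Finset.range N, G l x‖ₑ ∂(sigma (d + 1)))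
    atTop (𝓝 0)

/-- The rotation of the unit sphere of `ℝ^3` by the angle `h` about the third axis. -/
noncomputable def rotate (h : ℝ) (x : Sph 3) : Sph 3 :=
  ⟨!₂[x.1 0 * Real.cos h - x.1 1 * Real.sin h, x.1 0 * Real.sin h + x.1 1 * Real.cos h, x.1 2],
    by
      have hx : ‖x.1‖ = 1 := by simp
      rw [mem_sphere_zero_iff_norm]
      rw [EuclideanSpace.norm_eq, Fin.sum_univ_three] at hx ⊢
      refine Eq.trans ?_ hx
      congr 1
      simp only [Real.norm_eq_abs, sq_abs]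
      simp
      nlinarith [Real.sin_sq_add_cos_sq h]⟩

/-- the component of frequency `k` in longitude of a function on the unit sphere of `ℝ³` -/
noncomputable def comp (k : ℤ) (g : Sph 3 → ℂ) (x : Sph 3) : ℂ :=
  (((2 * Real.pi)⁻¹ : ℝ) : ℂ) * ∫ φ in (0 : ℝ)..(2 * Real.pi),
    g (rotate φ x) * Complex.exp (-((k * φ : ℝ) : ℂ) * Complex.I)

/-- the spectrum of `g` in longitude is contained in `L ∪ -L` -/
def Spectrum (L : Set ℕ) (g : Sph 3 → ℂ) : Prop :=
  ∀ k : ℤ, k.natAbs ∉ L → comp k g =ᵐ[sigma 3] 0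

/-- the set `L` contains at most `B N^β` integers below `N` -/
def Sparse (B β : ℝ) (L : Set ℕ) : Prop :=
  ∀ N : ℕ, 1 ≤ N → ((L ∩ Iio N).ncard : ℝ) ≤ B * (N : ℝ) ^ β

/-- (1) The full range for one latitudinal degree, uniformly in the degree; `n = d + 1`. -/
def SingleDegree : Prop := ∀ (d : ℕ) (p : ℝ), 2 ≤ d → 2 * ((d : ℝ) + 1) / d < p →
  ∃ C : ℝ≥0, ∀ (l : ℕ) (A : ℝ) (g : Sph (d + 1) → ℂ), Measurable g →
    (∀ x, ‖g x‖ ≤ A) → Latitudinal l g →
    eLpNorm (ft g) (ENNReal.ofReal p) volume ≤ C * ENNReal.ofReal A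

/-- (2) Sums of densities of different latitudinal degrees; `n = d + 1`, `0 ≤ β < (n - 2)/4` and
`p > 2(n - 4β)/(n - 1 - 4β)`. -/
def Sums : Prop := ∀ (d : ℕ) (β p : ℝ), 2 ≤ d → 0 ≤ β → 4 * β < (d : ℝ) - 1 →
  2 * ((d : ℝ) + 1 - 4 * β) / (d - 4 * β) < p →
  ∃ C : ℝ≥0, ∀ (A : ℝ) (m : ℕ → ℝ) (g : Sph (d + 1) → ℂ)
    (G : ℕ → Sph (d + 1) → ℂ), Expansion A β m g G →
    eLpNorm (ft g) (ENNReal.ofReal p) volume ≤ C * ENNReal.ofReal A

/-- (3) The full range `p > 2n/(n-1)`, `n = d + 1`, if the sums grow slower than every power. -/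
def FullRange : Prop := ∀ (d : ℕ) (p : ℝ), 2 ≤ d → 2 * ((d : ℝ) + 1) / d < p →
  ∀ (m : ℕ → ℝ) (g : Sph (d + 1) → ℂ) (G : ℕ → Sph (d + 1) → ℂ),
    (∀ β : ℝ, 0 < β → ∃ A : ℝ, Expansion A β m g G) →
    MemLp (ft g) (ENNReal.ofReal p) volume

/-- (4) Bounded densities in `ℝ³` with sparse spectrum in longitude, `0 ≤ β < 1/4` and
`p > 2(3 - 4β)/(2 - 4β)`. -/
def Longitude : Prop := ∀ β p : ℝ, 0 ≤ β → 4 * β < 1 → 2 * (3 - 4 * β) / (2 - 4 * β) < p →
  ∃ C : ℝ≥0, ∀ (A B : ℝ) (L : Set ℕ) (g : Sph 3 → ℂ), 1 ≤ B → Sparse B β L →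
    Measurable g → (∀ x, ‖g x‖ ≤ A) → Spectrum L g →
    eLpNorm (ft g) (ENNReal.ofReal p) volume ≤ C * ENNReal.ofReal (B * A)

/-- (5) The full range `p > 3` in `ℝ³` if the number of frequencies below `N` grows slower than
every power of `N`. -/
def LongitudeFull : Prop := ∀ p : ℝ, 3 < p → ∀ (L : Set ℕ) (A : ℝ) (g : Sph 3 → ℂ),
    (∀ β : ℝ, 0 < β → ∃ B : ℝ, Sparse B β L) → Measurable g → (∀ x, ‖g x‖ ≤ A) → Spectrum L g →
    MemLp (ft g) (ENNReal.ofReal p) volume

/-! ### Proofs -/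

open Pool.Agent.H243

theorem Expansion.toRA {d : ℕ} {A β : ℝ} {m : ℕ → ℝ} {g : sphere (0 : E (d + 1)) 1 → ℂ}
    {G : ℕ → sphere (0 : E (d + 1)) 1 → ℂ} (h : Expansion A β m g G) :
    RA.Expansion A β m g G := ⟨h.gm, h.gb, h.Gm, h.Gb, h.lat, h.grow, h.lim⟩

theorem sums : Sums := by
  intro d β p hd hβ hβ1 hp
  obtain ⟨C, hC⟩ := RA.ft_bound hd β p hβ hβ1 hp
  exact ⟨C, fun A m g G h => hC A m g G h.toRA⟩

theorem singleDegree : SingleDegree := by
  classical
  intro d p hd hp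
  have hd2 : (2 : ℝ) ≤ d := by exact_mod_cast hd
  obtain ⟨C, hC⟩ := sums d 0 p hd le_rfl (by linarith) (by simpa using hp)
  refine ⟨C, fun l A g hg hA hl => ?_⟩
  obtain ⟨x0, hx0⟩ := RA.exists_pt d
  have hA0 : 0 ≤ A := (norm_nonneg _).trans (hA ⟨x0, hx0⟩)
  refine hC A (fun k => if k = l then A else 0) g (fun k x => if k = l then g x else 0)
    ⟨hg, hA, ?_, ?_, ?_, ?_, ?_⟩
  · intro k
    by_cases hk : k = l
    · simp only [if_pos hk]
      exact hg
    · simp only [if_neg hk]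
      exact measurable_const
  · intro k x
    by_cases hk : k = l
    · simp only [if_pos hk]
      exact hA x
    · simp only [if_neg hk]
      simp
  · intro k
    by_cases hk : k = l
    · simp only [if_pos hk]
      rw [hk]
      exact hl
    · simp only [if_neg hk]
      exact RA.Lat_zero k
  · intro N _
    rw [Finset.sum_ite_eq', Real.rpow_zero, mul_one]
    split_ifs
    · exact le_rfl
    · exact hA0
  · apply tendsto_const_nhds.congr'
    filter_upwards [eventually_gt_atTop l] with N hN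
    have : ∀ x : sphere (0 : E (d + 1)) 1, g x - ∑ k ∈ Finset.range N, (if k = l then g x else 0) =
        0 := by
      intro x
      rw [Finset.sum_ite_eq' (Finset.range N) l (fun _ => g x), if_pos (Finset.mem_range.2 hN),
        sub_self]
    simp only [this, enorm_zero, lintegral_zero]

theorem ft_meas {n : ℕ} {g : sphere (0 : E n) 1 → ℂ} (hg : Measurable g) :
    AEStronglyMeasurable (ft g) volume := by
  have := Pool.Agent.H789R2.FR.sg_finite n
  have h1 : ft g = fun ξ => Pool.Agent.H789R2.FR.T (RA.ext g) ((2 * Real.pi) • ξ) := by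
    funext ξ
    exact RA.ft_ext g hg ξ
  rw [h1]
  exact ((Pool.Agent.H789R2.FR.L2.measurable_T _ (RA.ext_meas hg)).measurable.comp
    (measurable_const_smul _)).aestronglyMeasurable

theorem exists_beta (n p : ℝ) (hn : 3 ≤ n) (hp : 2 * n / (n - 1) < p) :
    ∃ β : ℝ, 0 < β ∧ 4 * β < n - 2 ∧ 2 * (n - 4 * β) / (n - 1 - 4 * β) < p := by
  have h1 : Tendsto (fun β : ℝ => 2 * (n - 4 * β) / (n - 1 - 4 * β)) (𝓝[>] 0)
      (𝓝 (2 * (n - 4 * 0) / (n - 1 - 4 * 0))) := by
    apply Tendsto.mono_left _ nhdsWithin_le_nhds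
    apply ContinuousAt.tendsto
    apply ContinuousAt.div
    · fun_prop
    · fun_prop
    · linarith
  rw [mul_zero, sub_zero, sub_zero] at h1
  have h2 := h1.eventually (gt_mem_nhds hp)
  have h3 : ∀ᶠ β : ℝ in 𝓝[>] 0, β < (n - 2) / 4 :=
    nhdsWithin_le_nhds (gt_mem_nhds (by linarith : (0 : ℝ) < (n - 2) / 4))
  have h4 : ∀ᶠ β : ℝ in 𝓝[>] 0, 0 < β := self_mem_nhdsWithin
  obtain ⟨β, h5, h6, h7⟩ := (h2.and (h3.and h4)).exists
  exact ⟨β, h7, by linarith, h5⟩

theorem fullRange : FullRange := by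
  intro d p hd hp m g G h
  have hd2 : (2 : ℝ) ≤ d := by exact_mod_cast hd
  obtain ⟨β, h1, h2, h3⟩ := exists_beta ((d : ℝ) + 1) p (by linarith) (by
    rwa [add_sub_cancel_right])
  obtain ⟨A, hA⟩ := h β h1
  obtain ⟨C, hC⟩ := sums d β p hd h1.le (by linarith) (by
    rwa [add_sub_cancel_right] at h3)
  refine ⟨ft_meas hA.gm, (hC A m g G hA).trans_lt ?_⟩
  exact ENNReal.mul_lt_top ENNReal.coe_lt_top ENNReal.ofReal_lt_top

theorem longitude : Longitude := by
  intro β p hβ hβ1 hp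
  obtain ⟨C, hC⟩ := sums 2 β p le_rfl hβ (by push_cast; linarith) (by
    push_cast
    refine lt_of_le_of_lt (le_of_eq ?_) hp
    congr 1
    ring)
  refine ⟨C * 2, fun A B L g hB hL hg hA hs => ?_⟩
  obtain ⟨x0, hx0⟩ := RA.exists_pt 2
  have hA0 : 0 ≤ A := (norm_nonneg _).trans (hA ⟨x0, hx0⟩)
  obtain ⟨m, G, hE⟩ := RA.long_exp hA0 hB hL hg hA hs
  have h1 := hC (2 * A * B) m g G ⟨hE.gm, hE.gb, hE.Gm, hE.Gb, hE.lat, hE.grow, hE.lim⟩
  refine h1.trans (le_of_eq ?_)
  rw [show 2 * A * B = 2 * (B * A) by ring, ENNReal.ofReal_mul (by norm_num), ← mul_assoc]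
  congr 1
  push_cast
  norm_num

theorem longitudeFull : LongitudeFull := by
  intro p hp L A g hL hg hA hs
  obtain ⟨β, h1, h2, h3⟩ := exists_beta 3 p le_rfl (by norm_num; exact hp)
  obtain ⟨B, hB⟩ := hL β h1
  obtain ⟨C, hC⟩ := longitude β p h1.le (by linarith) (by
    refine lt_of_le_of_lt (le_of_eq ?_) h3
    congr 1
    ring)
  have hB' : Sparse (max B 1) β L := fun N hN => (hB N hN).trans
    (mul_le_mul_of_nonneg_right (le_max_left _ _) (by positivity))
  refine ⟨ft_meas hg, (hC A (max B 1) L g (le_max_right _ _) hB' hg hA hs).trans_lt ?_⟩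
  exact ENNReal.mul_lt_top ENNReal.coe_lt_top ENNReal.ofReal_lt_top

theorem result : SingleDegree ∧ Sums ∧ FullRange ∧ Longitude ∧ LongitudeFull :=
  ⟨singleDegree, sums, fullRange, longitude, longitudeFull⟩

end Pool.Agent.Results.MP_6cbfb8_an.LatitudinalDegrees
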