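import Pool.Agent.H222.SP.Qual

/-!
# Stein's restriction conjecture for the sphere is a statement about small polynomial phases

Let `σ` be the surface measure of the unit sphere of `ℝ^n`, `n ≥ 2`, and let `ft g` be the Fourier
transform of the measure `g dσ`. Let `U` be the sphere or any measurable subset of the sphere which
contains a cap, and let `c > 0` be a number, as small as one likes. The test densities are the
functions `e^{iP} 1_U` with a real polynomial `P` in `n` variables of degree at most `D` such that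
`|P| ≤ c` on `U`; their transforms are observed on the ball of radius `D` only.

* For every `q ≥ 1` the growth exponent, in `R`, of the norms `‖ft g‖_{L^q(B_R)}^q` over all densities
  with `|g| ≤ 1` is equal to the growth exponent, in `D`, of the norms `‖ft (e^{iP} 1_U)‖_{L^q(B_D)}^q`
  over these polynomials.
* For every `p ≥ 2`, `ft g ∈ L^q(ℝ^n)` holds for all bounded densities `g` and all `q > p` if and only
  if `‖ft (e^{iP} 1_U)‖_{L^p(B_D)}^p ≤ C_ε D^ε` for these polynomials and every `ε > 0`, and if and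
  only if for every `q > p` and `ε > 0` the bound `‖ft (e^{iP} 1_U)‖_{L^q(ℝ^n)}^q ≤ C D^ε` holds for
  them.
* Hence Q1 is equivalent to the bounds `‖ft (e^{iP})‖_{L^p(B_D)}^p ≤ C_ε D^ε`, `p = 2n/(n-1)`, `n ≥ 3`,
  for the real polynomials of degree at most `D` which are bounded by `c` on the sphere.
-/

open MeasureTheory Set Filter Metric
open scoped ENNReal NNReal Topology

namespace Pool.Agent.Results.MP_6cbfb8_an.SmallPolynomialPhases

/-- Euclidean space `ℝ^n` -/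
abbrev Eu (n : ℕ) := EuclideanSpace ℝ (Fin n)

/-- the surface measure of the unit sphere, as a measure on `ℝ^n` -/
noncomputable def sigma (n : ℕ) : Measure (Eu n) :=
  ((volume : Measure (Eu n)).toSphere).map Subtype.val

/-- the Fourier transform of the measure `g dσ` -/
noncomputable def ft {n : ℕ} (g : Eu n → ℂ) (ξ : Eu n) : ℂ :=
  ∫ x, Complex.exp ((-(2 * Real.pi * inner ℝ x ξ) : ℝ) * Complex.I) * g x ∂(sigma n)

/-- the assertion of Q1 for one dimension and one exponent -/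
def Stein (n : ℕ) (q : ℝ) : Prop :=
  ∀ g : Eu n → ℂ, Measurable g → (∃ M : ℝ, ∀ x, ‖g x‖ ≤ M) → ∫⁻ ξ, ‖ft g ξ‖ₑ ^ q < ∞

/-- the same with a bound -/
def Estimate (n : ℕ) (q : ℝ) : Prop :=
  ∃ C : ℝ≥0, ∀ g : Eu n → ℂ, Measurable g → (∀ x, ‖g x‖ ≤ 1) → ∫⁻ ξ, ‖ft g ξ‖ₑ ^ q ≤ C

/-- the integral of `|ft g|^q` over the ball of radius `R` is at most `C R^τ`, for all densities
bounded by one -/
def Loss (n : ℕ) (q τ : ℝ) : Prop :=
  ∃ C : ℝ≥0, ∀ g : Eu n → ℂ, Measurable g → (∀ x, ‖g x‖ ≤ 1) → ∀ R : ℝ, 1 ≤ R →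
    ∫⁻ ξ in closedBall (0 : Eu n) R, ‖ft g ξ‖ₑ ^ q ≤ C * ENNReal.ofReal (R ^ τ)

/-- measurable subsets of the unit sphere which contain a cap -/
def Fat {n : ℕ} (U : Set (Eu n)) : Prop :=
  MeasurableSet U ∧ U ⊆ sphere 0 1 ∧
    ∃ x₀ ∈ sphere (0 : Eu n) 1, ∃ r : ℝ, 0 < r ∧ sphere 0 1 ∩ ball x₀ r ⊆ U

/-- the value of a polynomial at a point -/
noncomputable def val {n : ℕ} (P : MvPolynomial (Fin n) ℝ) (x : Eu n) : ℝ :=
  MvPolynomial.eval (fun i => x i) P

/-- the polynomials of degree at most `D` which are bounded by `c` on `U` -/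
def Small {n : ℕ} (U : Set (Eu n)) (c : ℝ) (D : ℕ) (P : MvPolynomial (Fin n) ℝ) : Prop :=
  P.totalDegree ≤ D ∧ ∀ x ∈ U, |val P x| ≤ c

/-- the density `e^{iP} 1_U` -/
noncomputable def wave {n : ℕ} (U : Set (Eu n)) (P : MvPolynomial (Fin n) ℝ) : Eu n → ℂ :=
  U.indicator fun x => Complex.exp ((val P x : ℝ) * Complex.I)

/-- the integral of `|ft (e^{iP} 1_U)|^q` over the ball of radius `D` is at most `C D^τ`, for all
polynomials `P` of degree at most `D` with `|P| ≤ c` on `U` -/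
def PolyLoss {n : ℕ} (U : Set (Eu n)) (c q τ : ℝ) : Prop :=
  ∃ C : ℝ≥0, ∀ D : ℕ, 1 ≤ D → ∀ P, Small U c D P →
    ∫⁻ ξ in closedBall (0 : Eu n) D, ‖ft (wave U P) ξ‖ₑ ^ q ≤ C * ENNReal.ofReal ((D : ℝ) ^ τ)

/-- the same for the integral over the whole space -/
def PolyLossGlobal {n : ℕ} (U : Set (Eu n)) (c q τ : ℝ) : Prop :=
  ∃ C : ℝ≥0, ∀ D : ℕ, 1 ≤ D → ∀ P, Small U c D P →
    ∫⁻ ξ, ‖ft (wave U P) ξ‖ₑ ^ q ≤ C * ENNReal.ofReal ((D : ℝ) ^ τ)

/-- the exponent `2n/(n-1)` -/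
noncomputable def critical (n : ℕ) : ℝ := 2 * (n : ℝ) / (n - 1)

open Pool.Agent.H222.SP

variable {n : ℕ}

theorem sigma_eq (n : ℕ) : sigma n = Pool.Agent.H789R2.FR.sg n := rfl

theorem sigma_fin (n : ℕ) : IsFiniteMeasure (sigma n) := Pool.Agent.H789R2.FR.sg_finite n

theorem ft_eq (g : Eu n → ℂ) : ft g = TT (sigma n) g := by
  funext ξ
  unfold ft TT
  refine integral_congr_ae (Eventually.of_forall fun x => ?_)
  exact mul_comm _ _

theorem wave_eq (U : Set (Eu n)) (P : MvPolynomial (Fin n) ℝ) : wave U P = uni U (ev P) 1 := by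
  unfold wave uni
  simp only [one_mul]
  rfl

theorem wave_meas {U : Set (Eu n)} (hU : MeasurableSet U) (P : MvPolynomial (Fin n) ℝ) :
    Measurable (wave U P) := by
  rw [wave_eq]
  exact uni_meas hU (ev_cont P).measurable 1

theorem wave_le (U : Set (Eu n)) (P : MvPolynomial (Fin n) ℝ) (x : Eu n) : ‖wave U P x‖ ≤ 1 := by
  rw [wave_eq]
  exact uni_le _ _ _ _

theorem loss_iff {q τ : ℝ} : Loss n q τ ↔ Est (sigma n) q τ := by
  unfold Loss Est NN
  simp only [ft_eq]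

theorem estimate_iff {q : ℝ} : Estimate n q ↔ GE (sigma n) q := by
  unfold Estimate GE
  simp only [ft_eq]

theorem poly_iff {U : Set (Eu n)} {c q τ : ℝ} : PolyLoss U c q τ ↔ PL (sigma n) U c q τ := by
  unfold PolyLoss PL NN
  simp only [ft_eq, wave_eq]
  constructor
  · rintro ⟨C, hC⟩
    exact ⟨C, fun D hD P h1 h2 => hC D hD P ⟨h1, h2⟩⟩
  · rintro ⟨C, hC⟩
    exact ⟨C, fun D hD P h => hC D hD P h.1 h.2⟩

theorem stein_iff {q : ℝ} (hq : 1 ≤ q) : Stein n q ↔ Estimate n q := by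
  have hfin := sigma_fin n
  have hq0 : 0 < q := by linarith
  constructor
  · intro h
    rw [estimate_iff]
    refine GE_of_qual hq fun f hf hf1 => ?_
    have h1 := h f hf ⟨1, hf1⟩
    rw [ft_eq] at h1
    exact h1
  · rintro ⟨C, hC⟩ g hg ⟨M, hM⟩
    obtain ⟨K, hK⟩ : ∃ K : ℝ, K = |M| + 1 := ⟨_, rfl⟩
    have hK0 : 0 < K := by rw [hK]; positivity
    have h1 := hC (fun x => (K : ℂ)⁻¹ * g x) (hg.const_mul _) fun x => by
      rw [norm_mul, norm_inv, Complex.norm_real, Real.norm_of_nonneg hK0.le,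
        inv_mul_le_iff₀ hK0, mul_one, hK]
      have := (hM x).trans (le_abs_self M)
      linarith
    have h2 : ft g = fun ξ => (K : ℂ) * ft (fun x => (K : ℂ)⁻¹ * g x) ξ := by
      funext ξ
      rw [ft_eq, ft_eq, TT_smul, ← mul_assoc, mul_inv_cancel₀ (by exact_mod_cast hK0.ne'), one_mul]
    rw [h2]
    have h3 : ∀ ξ, ‖(K : ℂ) * ft (fun x => (K : ℂ)⁻¹ * g x) ξ‖ₑ ^ q =
        ‖(K : ℂ)‖ₑ ^ q * ‖ft (fun x => (K : ℂ)⁻¹ * g x) ξ‖ₑ ^ q := fun ξ => by
      rw [enorm_mul, ENNReal.mul_rpow_of_nonneg _ _ hq0.le]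
    simp only [h3]
    rw [lintegral_const_mul' _ _ (ENNReal.rpow_ne_top_of_nonneg hq0.le enorm_ne_top)]
    exact ENNReal.mul_lt_top (ENNReal.rpow_lt_top_of_nonneg hq0.le enorm_ne_top)
      (h1.trans_lt ENNReal.coe_lt_top)

theorem growth (hn : 2 ≤ n) {U : Set (Eu n)} (hU : Fat U) {c : ℝ} (hc : 0 < c) {q s : ℝ}
    (hq : 1 ≤ q) (hs : 0 ≤ s) :
    (∀ ε : ℝ, 0 < ε → Loss n q (s + ε)) ↔ ∀ ε : ℝ, 0 < ε → PolyLoss U c q (s + ε) := by
  have hfin := Pool.Agent.H789R2.FR.sg_finite n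
  obtain ⟨hUm, hUs, x₀, hx₀, r, hr, hrU⟩ := hU
  simp only [loss_iff, poly_iff]
  exact exponents (sph_sg n hn) (by omega) hUm (fun ξ hξ => mem_sphere_zero_iff_norm.1 (hUs hξ))
    (mem_sphere_zero_iff_norm.1 hx₀) hr
    (fun ξ hξ hξ2 => hrU ⟨mem_sphere_zero_iff_norm.2 hξ, hξ2⟩) hq hc hs

theorem estimates (hn : 2 ≤ n) {U : Set (Eu n)} (hU : Fat U) {c : ℝ} (hc : 0 < c) {p : ℝ}
    (hp : 2 ≤ p) :
    (∀ q : ℝ, p < q → Estimate n q) ↔ ∀ ε : ℝ, 0 < ε → PolyLoss U c p ε := by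
  have hfin := sigma_fin n
  have h1 := growth hn hU hc (q := p) (s := 0) (by linarith) le_rfl
  simp only [zero_add] at h1
  rw [← h1]
  simp only [loss_iff, estimate_iff]
  constructor
  · exact fun h ε hε => Est_of_GE (by linarith) h hε
  · exact fun h q hq => GE_of_eps n hn hp h hq

theorem steins {p : ℝ} (hp : 2 ≤ p) :
    (∀ q : ℝ, p < q → Stein n q) ↔ ∀ q : ℝ, p < q → Estimate n q :=
  ⟨fun h q hq => (stein_iff (by linarith)).1 (h q hq),
    fun h q hq => (stein_iff (by linarith)).2 (h q hq)⟩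

theorem estimates_global (hn : 2 ≤ n) {U : Set (Eu n)} (hU : Fat U) {c : ℝ} (hc : 0 < c) {p : ℝ}
    (hp : 2 ≤ p) :
    (∀ q : ℝ, p < q → Estimate n q) ↔
      ∀ q : ℝ, p < q → ∀ ε : ℝ, 0 < ε → PolyLossGlobal U c q ε := by
  constructor
  · intro h q hq ε hε
    obtain ⟨C, hC⟩ := h q hq
    refine ⟨C, fun D hD P _ => (hC _ (wave_meas hU.1 P) (wave_le U P)).trans ?_⟩
    have hD1 : (1 : ℝ) ≤ D := by exact_mod_cast hD
    calc (C : ℝ≥0∞) = C * 1 := (mul_one _).symm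
      _ ≤ _ := by
        gcongr
        rw [← ENNReal.ofReal_one]
        exact ENNReal.ofReal_le_ofReal (Real.one_le_rpow hD1 hε.le)
  · intro h q hq
    obtain ⟨s, hs0, hsq⟩ := exists_between hq
    refine (estimates hn hU hc (p := s) (by linarith)).2 (fun ε hε => ?_) q hsq
    obtain ⟨C, hC⟩ := h s hs0 ε hε
    exact ⟨C, fun D hD P hP => (setLIntegral_le_lintegral _ _).trans (hC D hD P hP)⟩

theorem fat_sphere (hn : 2 ≤ n) : Fat (sphere (0 : Eu n) 1) := by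
  have : Nontrivial (Eu n) := by
    have : Nonempty (Fin n) := ⟨⟨0, by omega⟩⟩
    infer_instance
  obtain ⟨x₀, hx₀⟩ := exists_norm_eq (Eu n) zero_le_one
  exact ⟨isClosed_sphere.measurableSet, subset_rfl, x₀, mem_sphere_zero_iff_norm.2 hx₀, 1, one_pos,
    inter_subset_left⟩

theorem critical_ge (hn : 2 ≤ n) : 2 ≤ critical n := by
  unfold critical
  have h : (2 : ℝ) ≤ n := by exact_mod_cast hn
  rw [le_div_iff₀ (by linarith)]
  linarith

/-- **Stein's restriction conjecture and small polynomial phases.** -/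
theorem result :
    -- equality of the growth exponents
    (∀ (n : ℕ) (U : Set (Eu n)) (c q s : ℝ), 2 ≤ n → Fat U → 0 < c → 1 ≤ q → 0 ≤ s →
      ((∀ ε : ℝ, 0 < ε → Loss n q (s + ε)) ↔ ∀ ε : ℝ, 0 < ε → PolyLoss U c q (s + ε))) ∧
    -- all exponents
    (∀ (n : ℕ) (U : Set (Eu n)) (c p : ℝ), 2 ≤ n → Fat U → 0 < c → 2 ≤ p →
      ((∀ q : ℝ, p < q → Stein n q) ↔ ∀ q : ℝ, p < q → Estimate n q) ∧
      ((∀ q : ℝ, p < q → Stein n q) ↔ ∀ ε : ℝ, 0 < ε → PolyLoss U c p ε) ∧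
      ((∀ q : ℝ, p < q → Stein n q) ↔
        ∀ q : ℝ, p < q → ∀ ε : ℝ, 0 < ε → PolyLossGlobal U c q ε)) ∧
    -- Q1
    (∀ c : ℝ, 0 < c → ((∀ n : ℕ, 3 ≤ n → ∀ q : ℝ, critical n < q → Stein n q) ↔
      ∀ n : ℕ, 3 ≤ n → ∀ ε : ℝ, 0 < ε → PolyLoss (sphere (0 : Eu n) 1) c (critical n) ε)) := by
  refine ⟨fun n U c q s hn hU hc hq hs => growth hn hU hc hq hs,
    fun n U c p hn hU hc hp => ⟨steins hp, (steins hp).trans (estimates hn hU hc hp),
      (steins hp).trans (estimates_global hn hU hc hp)⟩, fun c hc => ?_⟩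
  constructor
  · exact fun h n hn => ((steins (critical_ge (by omega))).trans
      (estimates (by omega) (fat_sphere (by omega)) hc (critical_ge (by omega)))).1 (h n hn)
  · exact fun h n hn => ((steins (critical_ge (by omega))).trans
      (estimates (by omega) (fat_sphere (by omega)) hc (critical_ge (by omega)))).2 (h n hn)

end Pool.Agent.Results.MP_6cbfb8_an.SmallPolynomialPhases
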