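import Pool.Agent.H222.SP.Qual
import Pool.Agent.H222.SP.Ck2
import Pool.Agent.H222.SP.An2

/-!
# Stein's restriction conjecture for the sphere, smooth phases and analytic phases

Let `σ` be the surface measure of the unit sphere of `ℝ^n`, `n ≥ 2`, and let `ft g` be the Fourier
transform of the measure `g dσ`. Let `U` be the sphere or any measurable subset of the sphere which
contains a cap. The test densities are `e^{iRφ} 1_U` with one large parameter `R` and a real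
function `φ` from a fixed class of smooth or of analytic functions.

* Smooth phases. For `k ≥ 1` let `φ` run over the smooth real functions on `ℝ^n` whose derivatives
  of order at most `k` are bounded by one. If `‖ft (e^{iRφ} 1_U)‖_{L^q(B_R)}^q ≤ C R^τ` with `τ < 1`
  for these functions, then `‖ft g‖_{L^q(B_R)}^q ≤ C' R^{kτ}` for all densities with `|g| ≤ 1`. Hence
  `ft g ∈ L^q(ℝ^n)` holds for all bounded `g` and all `q > p` if and only if for every `ε > 0` there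
  is a `k` with `‖ft (e^{iRφ} 1_U)‖_{L^p(B_R)}^p ≤ C R^{ε/k}`.
* Analytic phases. Let `P` run over the real polynomials, of any degree, which are bounded by one on
  the complex polydisc of radius two. The growth exponent, in `R`, of the norms
  `‖ft g‖_{L^q(B_R)}^q` over all densities with `|g| ≤ 1` is equal to the growth exponent, in
  `log R`, of the norms `‖ft (e^{iRP} 1_U)‖_{L^q(B_{log R})}^q` over these phases. Hence
  `ft g ∈ L^q(ℝ^n)` holds for all bounded `g` and all `q > p` if and only if the latter norms, with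
  `q = p`, are bounded by `C_ε (log R)^ε` for every `ε > 0`.
-/

open MeasureTheory Set Filter Metric
open scoped ENNReal NNReal Topology

namespace Pool.Agent.Results.MP_6cbfb8_an.SmoothAndAnalyticPhases

/-- Euclidean space `ℝ^n` -/
abbrev Eu (n : ℕ) := EuclideanSpace ℝ (Fin n)

/-- the surface measure of the unit sphere, as a measure on `ℝ^n` -/
noncomputable def sigma (n : ℕ) : Measure (Eu n) :=
  ((volume : Measure (Eu n)).toSphere).map Subtype.val

/-- the Fourier transform of the measure `g dσ` -/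
noncomputable def ft {n : ℕ} (g : Eu n → ℂ) (ξ : Eu n) : ℂ :=
  ∫ x, Complex.exp ((-(2 * Real.pi * inner ℝ x ξ) : ℝ) * Complex.I) * g x ∂(sigma n)

/-- the assertion of Q1 for one dimension and one exponent -/
def Stein (n : ℕ) (q : ℝ) : Prop :=
  ∀ g : Eu n → ℂ, Measurable g → (∃ M : ℝ, ∀ x, ‖g x‖ ≤ M) → ∫⁻ ξ, ‖ft g ξ‖ₑ ^ q < ∞

/-- the same with a bound -/
def Estimate (n : ℕ) (q : ℝ) : Prop :=
  ∃ C : ℝ≥0, ∀ g : Eu n → ℂ, Measurable g → (∀ x, ‖g x‖ ≤ 1) → ∫⁻ ξ, ‖ft g ξ‖ₑ ^ q ≤ C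

/-- the integral of `|ft g|^q` over the ball of radius `R` is at most `C R^τ`, for all densities
bounded by one -/
def Loss (n : ℕ) (q τ : ℝ) : Prop :=
  ∃ C : ℝ≥0, ∀ g : Eu n → ℂ, Measurable g → (∀ x, ‖g x‖ ≤ 1) → ∀ R : ℝ, 1 ≤ R →
    ∫⁻ ξ in closedBall (0 : Eu n) R, ‖ft g ξ‖ₑ ^ q ≤ C * ENNReal.ofReal (R ^ τ)

/-- measurable subsets of the unit sphere which contain a cap -/
def Fat {n : ℕ} (U : Set (Eu n)) : Prop :=
  MeasurableSet U ∧ U ⊆ sphere 0 1 ∧
    ∃ x₀ ∈ sphere (0 : Eu n) 1, ∃ r : ℝ, 0 < r ∧ sphere 0 1 ∩ ball x₀ r ⊆ U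

/-- the density `e^{iRφ} 1_U` -/
noncomputable def wave {n : ℕ} (U : Set (Eu n)) (φ : Eu n → ℝ) (R : ℝ) : Eu n → ℂ :=
  U.indicator fun x => Complex.exp ((R * φ x : ℝ) * Complex.I)

/-- the smooth real functions on `ℝ^n` whose derivatives of order at most `k` are bounded by one -/
def Smooth {n : ℕ} (k : ℕ) (φ : Eu n → ℝ) : Prop :=
  ContDiff ℝ ((⊤ : ℕ∞) : WithTop ℕ∞) φ ∧ ∀ j ≤ k, ∀ x, ‖iteratedFDeriv ℝ j φ x‖ ≤ 1

/-- the integral of `|ft (e^{iRφ} 1_U)|^q` over the ball of radius `R` is at most `C R^τ`, for all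
smooth `φ` whose derivatives of order at most `k` are bounded by one -/
def SmoothLoss {n : ℕ} (U : Set (Eu n)) (k : ℕ) (q τ : ℝ) : Prop :=
  ∃ C : ℝ≥0, ∀ φ : Eu n → ℝ, Smooth k φ → ∀ R : ℝ, 1 ≤ R →
    ∫⁻ ξ in closedBall (0 : Eu n) R, ‖ft (wave U φ R) ξ‖ₑ ^ q ≤ C * ENNReal.ofReal (R ^ τ)

/-- the same for the integral over the whole space -/
def SmoothLossGlobal {n : ℕ} (U : Set (Eu n)) (k : ℕ) (q τ : ℝ) : Prop :=
  ∃ C : ℝ≥0, ∀ φ : Eu n → ℝ, Smooth k φ → ∀ R : ℝ, 1 ≤ R →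
    ∫⁻ ξ, ‖ft (wave U φ R) ξ‖ₑ ^ q ≤ C * ENNReal.ofReal (R ^ τ)

/-- the value of a polynomial at a point -/
noncomputable def val {n : ℕ} (P : MvPolynomial (Fin n) ℝ) (x : Eu n) : ℝ :=
  MvPolynomial.eval (fun i => x i) P

/-- the real polynomials, of any degree, bounded by one on the complex polydisc of radius two -/
def Disc {n : ℕ} (P : MvPolynomial (Fin n) ℝ) : Prop :=
  ∀ z : Fin n → ℂ, (∀ i, ‖z i‖ ≤ 2) → ‖MvPolynomial.aeval z P‖ ≤ 1

/-- the integral of `|ft (e^{iRP} 1_U)|^q` over the ball of radius `log R` is at most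
`C (log R)^τ`, for all real polynomials `P` bounded by one on the polydisc -/
def AnalyticLoss {n : ℕ} (U : Set (Eu n)) (q τ : ℝ) : Prop :=
  ∃ C : ℝ≥0, ∀ P : MvPolynomial (Fin n) ℝ, Disc P → ∀ R : ℝ, 3 ≤ R →
    ∫⁻ ξ in closedBall (0 : Eu n) (Real.log R), ‖ft (wave U (val P) R) ξ‖ₑ ^ q ≤
      C * ENNReal.ofReal (Real.log R ^ τ)

/-- the same for the integral over the whole space -/
def AnalyticLossGlobal {n : ℕ} (U : Set (Eu n)) (q τ : ℝ) : Prop :=
  ∃ C : ℝ≥0, ∀ P : MvPolynomial (Fin n) ℝ, Disc P → ∀ R : ℝ, 3 ≤ R →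
    ∫⁻ ξ, ‖ft (wave U (val P) R) ξ‖ₑ ^ q ≤ C * ENNReal.ofReal (Real.log R ^ τ)

/-- the exponent `2n/(n-1)` -/
noncomputable def critical (n : ℕ) : ℝ := 2 * (n : ℝ) / (n - 1)

open Pool.Agent.H222.SP

variable {n : ℕ}

theorem sigma_eq (n : ℕ) : sigma n = Pool.Agent.H789R2.FR.sg n := rfl

theorem sigma_fin (n : ℕ) : IsFiniteMeasure (sigma n) := Pool.Agent.H789R2.FR.sg_finite n

theorem ft_eq (g : Eu n → ℂ) : ft g = TT (sigma n) g := by
  funext ξ
  unfold ft TT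
  refine integral_congr_ae (Eventually.of_forall fun x => ?_)
  exact mul_comm _ _

theorem wave_eq (U : Set (Eu n)) (φ : Eu n → ℝ) (R : ℝ) : wave U φ R = uni U φ R := rfl

theorem wave_meas {U : Set (Eu n)} (hU : MeasurableSet U) {φ : Eu n → ℝ} (hφ : Measurable φ)
    (R : ℝ) : Measurable (wave U φ R) := uni_meas hU hφ R

theorem wave_le (U : Set (Eu n)) (φ : Eu n → ℝ) (R : ℝ) (x : Eu n) : ‖wave U φ R x‖ ≤ 1 :=
  uni_le _ _ _ _

theorem val_eq (P : MvPolynomial (Fin n) ℝ) : val P = ev P := rfl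

theorem loss_iff {q τ : ℝ} : Loss n q τ ↔ Est (sigma n) q τ := by
  unfold Loss Est NN
  simp only [ft_eq]

theorem estimate_iff {q : ℝ} : Estimate n q ↔ GE (sigma n) q := by
  unfold Estimate GE
  simp only [ft_eq]

theorem smooth_iff {U : Set (Eu n)} {k : ℕ} {q τ : ℝ} :
    SmoothLoss U k q τ ↔ SL (sigma n) U k q τ := by
  unfold SmoothLoss SL NN
  simp only [ft_eq, wave_eq]
  constructor
  · rintro ⟨C, hC⟩
    exact ⟨C, fun φ h1 h2 => hC φ ⟨h1, h2⟩⟩
  · rintro ⟨C, hC⟩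
    exact ⟨C, fun φ h => hC φ h.1 h.2⟩

theorem analytic_iff {U : Set (Eu n)} {q τ : ℝ} :
    AnalyticLoss U q τ ↔ AL (sigma n) U q τ := by
  unfold AnalyticLoss AL NN
  simp only [ft_eq, wave_eq, val_eq]
  rfl

theorem log_ge {R : ℝ} (hR : 3 ≤ R) : 1 ≤ Real.log R := by
  rw [Real.le_log_iff_exp_le (by linarith)]
  have := Real.exp_one_lt_d9
  linarith

theorem AL_of_Est {U : Set (Eu n)} (hU : MeasurableSet U) {q τ : ℝ} (h : Est (sigma n) q τ) :
    AL (sigma n) U q τ := by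
  obtain ⟨C, hC⟩ := h
  exact ⟨C, fun P _ R hR => hC (uni U (ev P) R) (uni_meas hU (ev_cont P).measurable R)
    (uni_le _ _ _) _ (log_ge hR)⟩

theorem stein_iff {q : ℝ} (hq : 1 ≤ q) : Stein n q ↔ Estimate n q := by
  have hfin := sigma_fin n
  have hq0 : 0 < q := by linarith
  constructor
  · intro h
    rw [estimate_iff]
    refine GE_of_qual hq fun f hf hf1 => ?_
    have h1 := h f hf ⟨1, hf1⟩
    rw [ft_eq] at h1
    exact h1
  · rintro ⟨C, hC⟩ g hg ⟨M, hM⟩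
    obtain ⟨K, hK⟩ : ∃ K : ℝ, K = |M| + 1 := ⟨_, rfl⟩
    have hK0 : 0 < K := by rw [hK]; positivity
    have h1 := hC (fun x => (K : ℂ)⁻¹ * g x) (hg.const_mul _) fun x => by
      rw [norm_mul, norm_inv, Complex.norm_real, Real.norm_of_nonneg hK0.le,
        inv_mul_le_iff₀ hK0, mul_one, hK]
      have := (hM x).trans (le_abs_self M)
      linarith
    have h2 : ft g = fun ξ => (K : ℂ) * ft (fun x => (K : ℂ)⁻¹ * g x) ξ := by
      funext ξ
      rw [ft_eq, ft_eq, TT_smul, ← mul_assoc, mul_inv_cancel₀ (by exact_mod_cast hK0.ne'), one_mul]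
    rw [h2]
    have h3 : ∀ ξ, ‖(K : ℂ) * ft (fun x => (K : ℂ)⁻¹ * g x) ξ‖ₑ ^ q =
        ‖(K : ℂ)‖ₑ ^ q * ‖ft (fun x => (K : ℂ)⁻¹ * g x) ξ‖ₑ ^ q := fun ξ => by
      rw [enorm_mul, ENNReal.mul_rpow_of_nonneg _ _ hq0.le]
    simp only [h3]
    rw [lintegral_const_mul' _ _ (ENNReal.rpow_ne_top_of_nonneg hq0.le enorm_ne_top)]
    exact ENNReal.mul_lt_top (ENNReal.rpow_lt_top_of_nonneg hq0.le enorm_ne_top)
      (h1.trans_lt ENNReal.coe_lt_top)

theorem steins {p : ℝ} (hp : 2 ≤ p) :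
    (∀ q : ℝ, p < q → Stein n q) ↔ ∀ q : ℝ, p < q → Estimate n q :=
  ⟨fun h q hq => (stein_iff (by linarith)).1 (h q hq),
    fun h q hq => (stein_iff (by linarith)).2 (h q hq)⟩

theorem Loss.mono {q τ τ' : ℝ} (h : Loss n q τ) (hτ : τ ≤ τ') : Loss n q τ' := by
  obtain ⟨C, hC⟩ := h
  refine ⟨C, fun g hg hg1 R hR => (hC g hg hg1 R hR).trans ?_⟩
  gcongr

theorem smooth_growth (hn : 2 ≤ n) {U : Set (Eu n)} (hU : Fat U) {q τ : ℝ}
    (hq : 1 ≤ q) {k : ℕ} (hk : 1 ≤ k) (hτ : τ < 1) (h : SmoothLoss U k q τ) :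
    Loss n q (k * τ) := by
  have hfin := Pool.Agent.H789R2.FR.sg_finite n
  obtain ⟨hUm, hUs, x₀, hx₀, r, hr, hrU⟩ := hU
  rw [loss_iff]
  exact Est_of_SL (sph_sg n hn) (by omega) hUm (mem_sphere_zero_iff_norm.1 hx₀) hr
    (fun ξ hξ hξ2 => hrU ⟨mem_sphere_zero_iff_norm.2 hξ, hξ2⟩) hq hk hτ (smooth_iff.1 h)

theorem smooth_of_loss {U : Set (Eu n)} (hU : Fat U) {q τ : ℝ} (k : ℕ) (h : Loss n q τ) :
    SmoothLoss U k q τ :=
  smooth_iff.2 (SL_of_Est hU.1 k (loss_iff.1 h))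

theorem analytic_growth (hn : 2 ≤ n) {U : Set (Eu n)} (hU : Fat U) {q s : ℝ}
    (hq : 1 ≤ q) (hs : 0 ≤ s) :
    (∀ ε : ℝ, 0 < ε → Loss n q (s + ε)) ↔ ∀ ε : ℝ, 0 < ε → AnalyticLoss U q (s + ε) := by
  have hfin := Pool.Agent.H789R2.FR.sg_finite n
  constructor
  · exact fun h ε hε => analytic_iff.2 (AL_of_Est hU.1 (loss_iff.1 (h ε hε)))
  · intro h ε hε
    obtain ⟨hUm, hUs, x₀, hx₀, r, hr, hrU⟩ := hU
    have h1 := analytic_iff.1 (h (ε / 2) (by positivity))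
    have hpos : 0 < s + ε / 2 := by positivity
    have h2 := Est_of_AL (sph_sg n hn) (by omega) hUm
      (fun ξ hξ => mem_sphere_zero_iff_norm.1 (hUs hξ))
      (mem_sphere_zero_iff_norm.1 hx₀) hr
      (fun ξ hξ hξ2 => hrU ⟨mem_sphere_zero_iff_norm.2 hξ, hξ2⟩) hq hpos.le h1
      (δ := (ε / 2) / (s + ε / 2)) (by positivity)
    refine (loss_iff.2 h2).mono (le_of_eq ?_)
    field_simp
    ring

theorem estimates_loss (hn : 2 ≤ n) {p : ℝ} (hp : 2 ≤ p) :
    (∀ q : ℝ, p < q → Estimate n q) ↔ ∀ ε : ℝ, 0 < ε → Loss n p ε := by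
  have hfin := sigma_fin n
  simp only [loss_iff, estimate_iff]
  constructor
  · exact fun h ε hε => Est_of_GE (by linarith) h hε
  · exact fun h q hq => GE_of_eps n hn hp h hq

theorem smooth_local (hn : 2 ≤ n) {U : Set (Eu n)} (hU : Fat U) {p : ℝ} (hp : 2 ≤ p) :
    (∀ q : ℝ, p < q → Estimate n q) ↔
      ∀ ε : ℝ, 0 < ε → ∃ k : ℕ, 1 ≤ k ∧ SmoothLoss U k p (ε / k) := by
  rw [estimates_loss hn hp]
  constructor
  · intro h ε hε
    exact ⟨1, le_rfl, smooth_of_loss hU 1 (h _ (by positivity))⟩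
  · intro h ε hε
    obtain ⟨k, hk, h1⟩ := h (min ε (1 / 2)) (by positivity)
    have hk0 : (1 : ℝ) ≤ k := by exact_mod_cast hk
    have h2 : min ε (1 / 2) / (k : ℝ) < 1 := by
      rw [div_lt_one (by linarith)]
      exact (min_le_right _ _).trans_lt (by linarith)
    refine (smooth_growth hn hU (by linarith) hk h2 h1).mono ?_
    rw [mul_div_cancel₀ _ (by positivity)]
    exact min_le_left _ _

theorem smooth_global (hn : 2 ≤ n) {U : Set (Eu n)} (hU : Fat U) {p : ℝ} (hp : 2 ≤ p) :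
    (∀ q : ℝ, p < q → Estimate n q) ↔
      ∀ q : ℝ, p < q → ∀ ε : ℝ, 0 < ε → ∃ k : ℕ, 1 ≤ k ∧ SmoothLossGlobal U k q (ε / k) := by
  constructor
  · intro h q hq ε hε
    obtain ⟨C, hC⟩ := h q hq
    refine ⟨1, le_rfl, C, fun φ hφ R hR =>
      (hC _ (wave_meas hU.1 hφ.1.continuous.measurable R) (wave_le U φ R)).trans ?_⟩
    calc (C : ℝ≥0∞) = C * 1 := (mul_one _).symm
      _ ≤ _ := by
        gcongr
        rw [← ENNReal.ofReal_one]
        exact ENNReal.ofReal_le_ofReal (Real.one_le_rpow hR (by positivity))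
  · intro h q hq
    obtain ⟨s, hs0, hsq⟩ := exists_between hq
    refine (smooth_local hn hU (p := s) (by linarith)).2 (fun ε hε => ?_) q hsq
    obtain ⟨k, hk, C, hC⟩ := h s hs0 ε hε
    exact ⟨k, hk, C, fun φ hφ R hR => (setLIntegral_le_lintegral _ _).trans (hC φ hφ R hR)⟩

theorem analytic_local (hn : 2 ≤ n) {U : Set (Eu n)} (hU : Fat U) {p : ℝ} (hp : 2 ≤ p) :
    (∀ q : ℝ, p < q → Estimate n q) ↔ ∀ ε : ℝ, 0 < ε → AnalyticLoss U p ε := by
  rw [estimates_loss hn hp]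
  have h1 := analytic_growth hn hU (q := p) (s := 0) (by linarith) le_rfl
  simpa only [zero_add] using h1

theorem analytic_global (hn : 2 ≤ n) {U : Set (Eu n)} (hU : Fat U) {p : ℝ} (hp : 2 ≤ p) :
    (∀ q : ℝ, p < q → Estimate n q) ↔
      ∀ q : ℝ, p < q → ∀ ε : ℝ, 0 < ε → AnalyticLossGlobal U q ε := by
  constructor
  · intro h q hq ε hε
    obtain ⟨C, hC⟩ := h q hq
    refine ⟨C, fun P _ R hR =>
      (hC _ (wave_meas hU.1 (ev_cont P).measurable R) (wave_le U _ R)).trans ?_⟩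
    calc (C : ℝ≥0∞) = C * 1 := (mul_one _).symm
      _ ≤ _ := by
        gcongr
        rw [← ENNReal.ofReal_one]
        exact ENNReal.ofReal_le_ofReal (Real.one_le_rpow (log_ge hR) hε.le)
  · intro h q hq
    obtain ⟨s, hs0, hsq⟩ := exists_between hq
    refine (analytic_local hn hU (p := s) (by linarith)).2 (fun ε hε => ?_) q hsq
    obtain ⟨C, hC⟩ := h s hs0 ε hε
    exact ⟨C, fun P hP R hR => (setLIntegral_le_lintegral _ _).trans (hC P hP R hR)⟩

theorem fat_sphere (hn : 2 ≤ n) : Fat (sphere (0 : Eu n) 1) := by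
  have : Nontrivial (Eu n) := by
    have : Nonempty (Fin n) := ⟨⟨0, by omega⟩⟩
    infer_instance
  obtain ⟨x₀, hx₀⟩ := exists_norm_eq (Eu n) zero_le_one
  exact ⟨isClosed_sphere.measurableSet, subset_rfl, x₀, mem_sphere_zero_iff_norm.2 hx₀, 1, one_pos,
    inter_subset_left⟩

theorem critical_ge (hn : 2 ≤ n) : 2 ≤ critical n := by
  unfold critical
  have h : (2 : ℝ) ≤ n := by exact_mod_cast hn
  rw [le_div_iff₀ (by linarith)]
  linarith

/-- **Stein's restriction conjecture, smooth phases and analytic phases.** -/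
theorem result :
    -- smooth phases: from the loss `τ` to the loss `kτ` for all bounded densities
    (∀ (n : ℕ) (U : Set (Eu n)) (k : ℕ) (q τ : ℝ), 2 ≤ n → Fat U → 1 ≤ k → 1 ≤ q → τ < 1 →
      SmoothLoss U k q τ → Loss n q (k * τ)) ∧
    -- analytic phases: equality of the growth exponents
    (∀ (n : ℕ) (U : Set (Eu n)) (q s : ℝ), 2 ≤ n → Fat U → 1 ≤ q → 0 ≤ s →
      ((∀ ε : ℝ, 0 < ε → Loss n q (s + ε)) ↔ ∀ ε : ℝ, 0 < ε → AnalyticLoss U q (s + ε))) ∧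
    -- all exponents
    (∀ (n : ℕ) (U : Set (Eu n)) (p : ℝ), 2 ≤ n → Fat U → 2 ≤ p →
      ((∀ q : ℝ, p < q → Stein n q) ↔ ∀ q : ℝ, p < q → Estimate n q) ∧
      ((∀ q : ℝ, p < q → Stein n q) ↔
        ∀ ε : ℝ, 0 < ε → ∃ k : ℕ, 1 ≤ k ∧ SmoothLoss U k p (ε / k)) ∧
      ((∀ q : ℝ, p < q → Stein n q) ↔
        ∀ q : ℝ, p < q → ∀ ε : ℝ, 0 < ε → ∃ k : ℕ, 1 ≤ k ∧ SmoothLossGlobal U k q (ε / k)) ∧
      ((∀ q : ℝ, p < q → Stein n q) ↔ ∀ ε : ℝ, 0 < ε → AnalyticLoss U p ε) ∧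
      ((∀ q : ℝ, p < q → Stein n q) ↔
        ∀ q : ℝ, p < q → ∀ ε : ℝ, 0 < ε → AnalyticLossGlobal U q ε)) ∧
    -- Q1
    ((∀ n : ℕ, 3 ≤ n → ∀ q : ℝ, critical n < q → Stein n q) ↔
      ∀ n : ℕ, 3 ≤ n → ∀ ε : ℝ, 0 < ε →
        ∃ k : ℕ, 1 ≤ k ∧ SmoothLoss (sphere (0 : Eu n) 1) k (critical n) (ε / k)) ∧
    ((∀ n : ℕ, 3 ≤ n → ∀ q : ℝ, critical n < q → Stein n q) ↔
      ∀ n : ℕ, 3 ≤ n → ∀ ε : ℝ, 0 < ε → AnalyticLoss (sphere (0 : Eu n) 1) (critical n) ε) := by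
  refine ⟨fun n U k q τ hn hU hk hq hτ h => smooth_growth hn hU hq hk hτ h,
    fun n U q s hn hU hq hs => analytic_growth hn hU hq hs,
    fun n U p hn hU hp => ⟨steins hp, (steins hp).trans (smooth_local hn hU hp),
      (steins hp).trans (smooth_global hn hU hp), (steins hp).trans (analytic_local hn hU hp),
      (steins hp).trans (analytic_global hn hU hp)⟩, ?_, ?_⟩
  · constructor
    · exact fun h n hn => ((steins (critical_ge (by omega))).trans
        (smooth_local (by omega) (fat_sphere (by omega)) (critical_ge (by omega)))).1 (h n hn)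
    · exact fun h n hn => ((steins (critical_ge (by omega))).trans
        (smooth_local (by omega) (fat_sphere (by omega)) (critical_ge (by omega)))).2 (h n hn)
  · constructor
    · exact fun h n hn => ((steins (critical_ge (by omega))).trans
        (analytic_local (by omega) (fat_sphere (by omega)) (critical_ge (by omega)))).1 (h n hn)
    · exact fun h n hn => ((steins (critical_ge (by omega))).trans
        (analytic_local (by omega) (fat_sphere (by omega)) (critical_ge (by omega)))).2 (h n hn)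

end Pool.Agent.Results.MP_6cbfb8_an.SmoothAndAnalyticPhases
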